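import Pool.Agent.Lib.MP_f16f70_an.NotPure
import Pool.Agent.Lib.MP_f16f70_an.H51PureExist

open scoped ComplexOrder

namespace Pool.Agent.Results.MP_f16f70_an.NoStateIso

open Pool.Agent.Lib.MP_f16f70_an

/-- Let `C` be a nonzero unital C*-algebra. Then `C` has pure states, and for every pure state `σ`
of `C`: if `(D, φ)` is the reduced free product of countably many copies `ι k : C → D` of
`(C, σ)`, and `(P, Φ)` is the reduced free product of `(C([0,1]), Lebesgue)` (embedded by `j₁`)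
and `(D, φ)` (embedded by `j₂`), then no *-isomorphism `θ : P ≃ D` satisfies `φ ∘ θ = Φ`. -/
theorem result (C : Type*) [CStarAlgebra C] [Nontrivial C] :
    (∃ σ : C →ₗ[ℂ] ℂ, IsPureState σ) ∧
    ∀ (σ : C →ₗ[ℂ] ℂ), IsPureState σ →
      ∀ (D : Type*) [CStarAlgebra D] (φ : D →ₗ[ℂ] ℂ) (ι : ℕ → C →⋆ₐ[ℂ] D),
        (∀ k c, φ (ι k c) = σ c) →
        IsReducedFreeProduct φ (fun k => Set.range (ι k)) →
      ∀ (P : Type*) [CStarAlgebra P] (Φ : P →ₗ[ℂ] ℂ)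
        (j₁ : C(unitInterval, ℂ) →⋆ₐ[ℂ] P) (j₂ : D →⋆ₐ[ℂ] P),
        (∀ f, Φ (j₁ f) = ∫ t, f t) → (∀ d, Φ (j₂ d) = φ d) →
        IsReducedFreeProduct Φ (fun b : Bool => cond b (Set.range j₁) (Set.range j₂)) →
      ¬ ∃ θ : P ≃⋆ₐ[ℂ] D, ∀ x, φ (θ x) = Φ x := by
  refine ⟨exists_pureState C, ?_⟩
  intro σ hσ D _ φ ι hι hD P _ Φ j₁ j₂ hj₁ _ hP
  rintro ⟨θ, hθ⟩
  have hφ : IsPureState φ := pure_of_free (σ := fun _ => σ) (fun _ => hσ) ι hι hD
  have hΦ : IsPureState Φ := pure_of_iso hφ θ hθ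
  refine not_pure hP (fun b : Bool => cond b j₁.range j₂.range) ?_ true j₁ rfl hj₁ hΦ
  intro b
  cases b <;> rfl

end Pool.Agent.Results.MP_f16f70_an.NoStateIso
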